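import Pool.Agent.Helper5.DCD.Red
import Pool.Agent.Helper5.CR.M1

/-!
# Module H1: few bridgeless edges with few components form a Hamiltonian cycle
-/

open Equiv Equiv.Perm Helper5.CR

namespace Helper5.DCD

namespace PlaneGraph

variable (G : PlaneGraph)

/-- the simple graph of the edges in `T` -/
def sub (T : Set (Fin G.m)) : SimpleGraph G.V where
  Adj v w := v ≠ w ∧ ∃ i ∈ T, ∃ s, G.vtx (i, s) = v ∧ G.vtx (i, !s) = w
  symm := ⟨by
    rintro v w ⟨h, i, hi, s, h1, h2⟩
    exact ⟨h.symm, i, hi, !s, h2, by simpa using h1⟩⟩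
  loopless := ⟨fun v h => h.1 rfl⟩

theorem sub_le (T : Set (Fin G.m)) : G.sub T ≤ G.graph := by
  rintro v w ⟨h, i, -, s, h1, h2⟩
  exact ⟨h, i, s, h1, h2⟩

theorem vtx_eq_iff {d d' : Fin G.m × Bool} : G.vtx d = G.vtx d' ↔ G.σ.SameCycle d d' :=
  Quotient.eq (r := SameCycle.setoid G.σ)

theorem vtx_surj (v : G.V) : ∃ d, G.vtx d = v := Quotient.exists_rep v

theorem comp_iff (T : Set (Fin G.m)) (d d' : Fin G.m × Bool) :
    comp G.σ (flipOn T) d d' ↔ (G.sub T).Reachable (G.vtx d) (G.vtx d') := by
  constructor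
  · intro h
    have hle : comp G.σ (flipOn T) ≤ Setoid.comap G.vtx (G.sub T).reachableSetoid := by
      refine sup_le ?_ ?_
      · intro a b hab
        have h1 : G.vtx a = G.vtx b := G.vtx_eq_iff.2 hab
        change (G.sub T).Reachable (G.vtx a) (G.vtx b)
        rw [h1]
      · intro a b hab
        refine sameCycle_of_forall (Setoid.comap G.vtx (G.sub T).reachableSetoid) ?_ hab
        rintro ⟨i, s⟩
        change (G.sub T).Reachable (G.vtx (i, s)) (G.vtx (flipOn T (i, s)))
        by_cases hi : i ∈ T
        · rw [flipOn_of_mem hi]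
          by_cases he : G.vtx (i, s) = G.vtx (i, !s)
          · rw [he]
          · exact SimpleGraph.Adj.reachable ⟨he, i, hi, s, rfl, rfl⟩
        · rw [flipOn_of_notMem hi]
    exact hle h
  · rintro ⟨p⟩
    have key : ∀ {v w : G.V} (p : (G.sub T).Walk v w) (d d' : Fin G.m × Bool),
        G.vtx d = v → G.vtx d' = w → comp G.σ (flipOn T) d d' := by
      intro v w p
      induction p with
      | nil =>
        intro d d' h1 h2
        exact (le_sup_left : SameCycle.setoid G.σ ≤ comp G.σ (flipOn T))
          (G.vtx_eq_iff.1 (h1.trans h2.symm))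
      | cons h p ih =>
        intro d d' h1 h2
        obtain ⟨-, i, hi, s, h3, h4⟩ := h
        have e1 : comp G.σ (flipOn T) d (i, s) :=
          (le_sup_left : SameCycle.setoid G.σ ≤ comp G.σ (flipOn T))
            (G.vtx_eq_iff.1 (h1.trans h3.symm))
        have e2 : comp G.σ (flipOn T) (i, s) (i, !s) :=
          (le_sup_right : SameCycle.setoid (flipOn T) ≤ comp G.σ (flipOn T))
            (show (flipOn T).SameCycle (i, s) (i, !s) from
              ⟨1, by rw [zpow_one, flipOn_of_mem hi]⟩)
        exact (comp G.σ (flipOn T)).trans e1 ((comp G.σ (flipOn T)).trans e2 (ih _ _ h4 h2))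
    exact key p d d' rfl rfl

theorem ncomp_eq (T : Set (Fin G.m)) :
    ncomp G.σ (flipOn T) = Nat.card (G.sub T).ConnectedComponent := by
  refine Nat.card_congr (Equiv.ofBijective (Quotient.lift (fun d =>
    (G.sub T).connectedComponentMk (G.vtx d)) ?_) ⟨?_, ?_⟩)
  · intro a b hab
    exact SimpleGraph.ConnectedComponent.sound ((G.comp_iff T a b).1 hab)
  · intro a b
    induction a using Quotient.inductionOn with
    | h a =>
    induction b using Quotient.inductionOn with
    | h b =>
    intro h
    exact Quotient.sound ((G.comp_iff T a b).2 (SimpleGraph.ConnectedComponent.exact h))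
  · intro c
    induction c using SimpleGraph.ConnectedComponent.ind with
    | h v =>
    obtain ⟨d, rfl⟩ := G.vtx_surj v
    exact ⟨Quotient.mk _ d, rfl⟩

end PlaneGraph

theorem closed_of_reachable {V : Type} {H : SimpleGraph V} (T : Set V)
    (hT : ∀ x ∈ T, ∀ y, H.Adj x y → y ∈ T) {v w : V} (hv : v ∈ T) (h : H.Reachable v w) :
    w ∈ T := by
  obtain ⟨p⟩ := h
  induction p with
  | nil => exact hv
  | cons h p ih => exact ih (hT _ hv _ h)

open Classical in
/-- the half-edges in `S` at the vertex `v` -/
noncomputable def hset (G : PlaneGraph) (S : Set (Fin G.m)) (v : G.V) : Finset (Fin G.m × Bool) :=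
  Finset.univ.filter fun d => d.1 ∈ S ∧ G.vtx d = v

theorem mem_hset {G : PlaneGraph} {S : Set (Fin G.m)} {v : G.V} {d : Fin G.m × Bool} :
    d ∈ hset G S v ↔ d.1 ∈ S ∧ G.vtx d = v := by
  simp [hset]

theorem sum_hset (G : PlaneGraph) (S : Set (Fin G.m)) :
    ∑ v : G.V, (hset G S v).card = 2 * Nat.card S := by
  classical
  have h1 : ∑ v : G.V, (hset G S v).card
      = (Finset.univ.filter fun d : Fin G.m × Bool => d.1 ∈ S).card := by
    rw [Finset.card_eq_sum_card_fiberwise (f := G.vtx) (t := Finset.univ)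
      (fun _ _ => Finset.mem_coe.2 (Finset.mem_univ _))]
    refine Finset.sum_congr rfl fun v _ => ?_
    congr 1
    ext d
    simp [hset]
  rw [h1]
  have h2 : (Finset.univ.filter fun d : Fin G.m × Bool => d.1 ∈ S)
      = (Finset.univ.filter fun i : Fin G.m => i ∈ S) ×ˢ (Finset.univ : Finset Bool) := by
    ext ⟨i, s⟩
    simp
  rw [h2, Finset.card_product, Nat.card_eq_fintype_card, Fintype.card_subtype]
  simp [mul_comm]

theorem adj_sub_iff {G : PlaneGraph} {S : Set (Fin G.m)} {v w : G.V} :
    (G.sub S).Adj v w ↔ v ≠ w ∧ ∃ d ∈ hset G S v, G.vtx (d.1, !d.2) = w := by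
  constructor
  · rintro ⟨h, i, hi, s, h1, h2⟩
    exact ⟨h, (i, s), mem_hset.2 ⟨hi, h1⟩, h2⟩
  · rintro ⟨h, d, hd, h2⟩
    obtain ⟨h3, h4⟩ := mem_hset.1 hd
    exact ⟨h, d.1, h3, d.2, h4, h2⟩

theorem hset_card_ne_one (G : PlaneGraph) (S : Set (Fin G.m))
    (hS : ∀ i ∈ S, comp G.σ (flipOn (S \ {i})) (i, false) (i, true)) (v : G.V) :
    (hset G S v).card ≠ 1 := by
  intro h1
  obtain ⟨⟨i, s⟩, hd⟩ := Finset.card_eq_one.1 h1
  have hmem : (i, s) ∈ hset G S v := by rw [hd]; exact Finset.mem_singleton_self _
  obtain ⟨hi, hv⟩ := mem_hset.1 hmem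
  have hr : (G.sub (S \ {i})).Reachable (G.vtx (i, s)) (G.vtx (i, !s)) := by
    have := (G.comp_iff _ _ _).1 (hS i hi)
    cases s
    · exact this
    · exact this.symm
  have hcl := closed_of_reachable (H := G.sub (S \ {i})) {v} (by
    rintro x rfl y ⟨-, j, hj, t, h3, h4⟩
    exfalso
    have : (j, t) ∈ hset G S x := mem_hset.2 ⟨hj.1, h3⟩
    rw [hd, Finset.mem_singleton] at this
    exact hj.2 (congrArg Prod.fst this)) (show G.vtx (i, s) ∈ ({v} : Set G.V) from hv) hr
  have h2 : (i, !s) ∈ hset G S v := mem_hset.2 ⟨hi, hcl⟩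
  rw [hd, Finset.mem_singleton] at h2
  have := congrArg Prod.snd h2
  cases s <;> simp at this

/-- Module H1: a connected spanning bridgeless subgraph with few edges is a Hamiltonian cycle. -/
theorem ham_of (G : PlaneGraph) (S : Set (Fin G.m))
    (hS : ∀ i ∈ S, comp G.σ (flipOn (S \ {i})) (i, false) (i, true))
    (hc : 2 * ncomp G.σ (flipOn S) + Nat.card S ≤ nc G.σ + 2) : G.graph.IsHamiltonian := by
  classical
  have hn : nc G.σ = Fintype.card G.V := by
    rw [← Nat.card_eq_fintype_card]; rfl
  have h3 := G.three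
  rw [hn] at hc h3
  rw [G.ncomp_eq] at hc
  set H := G.sub S with hH
  have : Fintype H.ConnectedComponent := Fintype.ofFinite _
  rw [Nat.card_eq_fintype_card] at hc
  have hiso : ∀ v, hset G S v = ∅ → ∀ w, H.Reachable v w → w = v := by
    intro v hv w hw
    refine closed_of_reachable {v} ?_ rfl hw
    rintro x rfl y hxy
    obtain ⟨-, d, hd, -⟩ := adj_sub_iff.1 hxy
    rw [hv] at hd
    exact absurd hd (Finset.notMem_empty _)
  -- every vertex carries a half-edge
  set A : Finset G.V := Finset.univ.filter fun v => (hset G S v).Nonempty with hA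
  have hsum := sum_hset G S
  have hA2 : 2 * A.card ≤ 2 * Nat.card S := by
    rw [← hsum, mul_comm, ← smul_eq_mul]
    refine (Finset.card_nsmul_le_sum A (fun v => (hset G S v).card) 2 ?_).trans
      (Finset.sum_le_sum_of_subset (Finset.subset_univ _))
    intro v hv
    have h1 : 0 < (hset G S v).card := Finset.card_pos.2 (Finset.mem_filter.1 hv).2
    have h2 := hset_card_ne_one G S hS v
    change 2 ≤ (hset G S v).card
    omega
  have hcomp : A.Nonempty → Fintype.card G.V + 1 ≤ Fintype.card H.ConnectedComponent + A.card := by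
    rintro ⟨a, ha⟩
    have hinj : Function.Injective (fun o : Option {v // v ∉ A} =>
        H.connectedComponentMk (o.elim a Subtype.val)) := by
      have hx : ∀ v : {v // v ∉ A}, ∀ w, H.Reachable v.1 w → w = v.1 := by
        intro v w hw
        refine hiso v.1 ?_ w hw
        by_contra hne
        exact v.2 (Finset.mem_filter.2 ⟨Finset.mem_univ _, Finset.nonempty_iff_ne_empty.2 hne⟩)
      rintro (_ | v) (_ | w) h
      · rfl
      · have := hx w a (SimpleGraph.ConnectedComponent.exact h).symm
        exact absurd (this ▸ ha) w.2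
      · have := hx v a (SimpleGraph.ConnectedComponent.exact h)
        exact absurd (this ▸ ha) v.2
      · have := hx v w.1 (SimpleGraph.ConnectedComponent.exact h)
        rw [Subtype.ext this]
    have hle := Fintype.card_le_of_injective _ hinj
    rw [Fintype.card_option, Fintype.card_subtype_compl, Fintype.card_coe] at hle
    have : A.card ≤ Fintype.card G.V := A.card_le_univ
    omega
  have hAn : A.card ≤ Fintype.card G.V := A.card_le_univ
  have hAne : A.Nonempty := by
    by_contra hne
    rw [Finset.not_nonempty_iff_eq_empty] at hne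
    have hinj : Function.Injective H.connectedComponentMk := by
      intro v w h
      refine (hiso v ?_ w (SimpleGraph.ConnectedComponent.exact h)).symm
      by_contra hx
      have : v ∈ A := Finset.mem_filter.2 ⟨Finset.mem_univ _, Finset.nonempty_iff_ne_empty.2 hx⟩
      rw [hne] at this
      exact absurd this (Finset.notMem_empty _)
    have := Fintype.card_le_of_injective _ hinj
    omega
  have hc1 := hcomp hAne
  obtain ⟨a0, -⟩ := hAne
  have hpos : 0 < Fintype.card H.ConnectedComponent :=
    Fintype.card_pos_iff.2 ⟨H.connectedComponentMk a0⟩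
  have hcard1 : Fintype.card H.ConnectedComponent = 1 := by omega
  have hcardS : Nat.card S = Fintype.card G.V := by omega
  have hcardA : A.card = Fintype.card G.V := by omega
  have hconn : H.Preconnected := by
    intro v w
    have : H.connectedComponentMk v = H.connectedComponentMk w :=
      (Fintype.card_le_one_iff.1 hcard1.le) _ _
    exact SimpleGraph.ConnectedComponent.exact this
  have hmemA : ∀ v, v ∈ A := by
    intro v
    rw [Finset.eq_univ_of_card A hcardA]
    exact Finset.mem_univ _
  have hge : ∀ v : G.V, 2 ≤ (hset G S v).card := by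
    intro v
    have h1 : 0 < (hset G S v).card := Finset.card_pos.2 (Finset.mem_filter.1 (hmemA v)).2
    have h2 := hset_card_ne_one G S hS v
    omega
  have htwo : ∀ v : G.V, (hset G S v).card = 2 := by
    have h := (Finset.sum_eq_sum_iff_of_le (s := Finset.univ) (f := fun _ : G.V => 2)
      (g := fun v => (hset G S v).card) (fun v _ => hge v)).1 (by
        rw [hsum, hcardS]; simp [mul_comm])
    intro v
    exact (h v (Finset.mem_univ _)).symm
  -- a third vertex
  have hthird : ∀ v w : G.V, ∃ u, u ≠ v ∧ u ≠ w := by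
    intro v w
    have hcard : ({v, w} : Finset G.V).card < (Finset.univ : Finset G.V).card := by
      have := Finset.card_le_two (a := v) (b := w)
      rw [Finset.card_univ]
      omega
    obtain ⟨u, -, hu⟩ := Finset.exists_mem_notMem_of_card_lt_card hcard
    refine ⟨u, ?_, ?_⟩ <;> rintro rfl <;> simp at hu
  have hnot : ∀ (T : Set G.V) (v w : G.V), T ⊆ {v, w} → v ∈ T →
      ¬ ∀ x ∈ T, ∀ y, H.Adj x y → y ∈ T := by
    intro T v w hT hv hcl
    obtain ⟨u, hu1, hu2⟩ := hthird v w
    rcases hT (closed_of_reachable T hcl hv (hconn v u)) with h | h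
    · exact hu1 h
    · exact hu2 h
  have hnb : ∀ v, (H.neighborSet v).ncard = 2 := by
    intro v
    obtain ⟨d₁, d₂, hne, hd⟩ := Finset.card_eq_two.1 (htwo v)
    have hm₁ : d₁ ∈ hset G S v := by rw [hd]; simp
    have hm₂ : d₂ ∈ hset G S v := by rw [hd]; simp
    have hadj : ∀ y, H.Adj v y ↔ v ≠ y ∧ (G.vtx (d₁.1, !d₁.2) = y ∨ G.vtx (d₂.1, !d₂.2) = y) := by
      intro y
      rw [hH, adj_sub_iff, hd]
      simp only [Finset.mem_insert, Finset.mem_singleton]
      constructor
      · rintro ⟨h, d, rfl | rfl, h2⟩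
        · exact ⟨h, Or.inl h2⟩
        · exact ⟨h, Or.inr h2⟩
      · rintro ⟨h, h2 | h2⟩
        · exact ⟨h, d₁, Or.inl rfl, h2⟩
        · exact ⟨h, d₂, Or.inr rfl, h2⟩
    have hflip : ∀ d : Fin G.m × Bool, (d.1, !d.2) ≠ d := by
      rintro ⟨i, s⟩ h
      have := congrArg Prod.snd h
      cases s <;> simp at this
    -- no loops
    have hloop : ∀ d ∈ hset G S v, ∀ d' ∈ hset G S v, d ≠ d' → hset G S v = {d, d'} →
        G.vtx (d.1, !d.2) ≠ v := by
      intro d hdm d' hdm' hdd hdeq hv
      have h1 : (d.1, !d.2) ∈ hset G S v := mem_hset.2 ⟨(mem_hset.1 hdm).1, hv⟩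
      rw [hdeq, Finset.mem_insert, Finset.mem_singleton] at h1
      rcases h1 with h1 | h1
      · exact hflip d h1
      · have h2 : G.vtx (d'.1, !d'.2) = v := by
          rw [← h1]
          have : ((d.1, !d.2).1, !(d.1, !d.2).2) = d := by simp
          rw [this]
          exact (mem_hset.1 hdm).2
        refine hnot {v} v v (by simp) rfl ?_
        rintro x rfl y hxy
        obtain ⟨hne', e, he, hey⟩ := adj_sub_iff.1 hxy
        rw [hdeq, Finset.mem_insert, Finset.mem_singleton] at he
        rcases he with rfl | rfl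
        · exact absurd (hv.symm.trans hey) hne'
        · exact absurd (h2.symm.trans hey) hne'
    have hl₁ := hloop d₁ hm₁ d₂ hm₂ hne hd
    have hl₂ := hloop d₂ hm₂ d₁ hm₁ hne.symm (by rw [hd, Finset.pair_comm])
    have hw : G.vtx (d₁.1, !d₁.2) ≠ G.vtx (d₂.1, !d₂.2) := by
      intro hw
      set w := G.vtx (d₁.1, !d₁.2) with hwdef
      have he₁ : (d₁.1, !d₁.2) ∈ hset G S w := mem_hset.2 ⟨(mem_hset.1 hm₁).1, rfl⟩
      have he₂ : (d₂.1, !d₂.2) ∈ hset G S w := mem_hset.2 ⟨(mem_hset.1 hm₂).1, hw.symm⟩
      have hee : (d₁.1, !d₁.2) ≠ (d₂.1, !d₂.2) := by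
        intro h
        apply hne
        have h1 := congrArg Prod.fst h
        have h2 := congrArg Prod.snd h
        simp only at h1 h2
        exact Prod.ext h1 (by simpa using h2)
      have hsub : ({(d₁.1, !d₁.2), (d₂.1, !d₂.2)} : Finset _) ⊆ hset G S w := by
        intro e he
        rw [Finset.mem_insert, Finset.mem_singleton] at he
        rcases he with rfl | rfl
        · exact he₁
        · exact he₂
      have heq := Finset.eq_of_subset_of_card_le hsub (by
        rw [htwo w, Finset.card_pair hee])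
      refine hnot {v, w} v w (by simp) (by simp) ?_
      rintro x (rfl | hx) y hxy
      · rcases (hadj y).1 hxy with ⟨-, h | h⟩
        · right; exact h.symm
        · right; exact (hw.trans h).symm
      · rw [Set.mem_singleton_iff] at hx
        subst hx
        left
        obtain ⟨-, e, he, hey⟩ := adj_sub_iff.1 hxy
        rw [← heq, Finset.mem_insert, Finset.mem_singleton] at he
        rcases he with rfl | rfl
        · rw [← hey]
          simpa using (mem_hset.1 hm₁).2
        · rw [← hey]
          simpa using (mem_hset.1 hm₂).2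
    have hset : H.neighborSet v = {G.vtx (d₁.1, !d₁.2), G.vtx (d₂.1, !d₂.2)} := by
      ext y
      rw [SimpleGraph.mem_neighborSet, hadj]
      simp only [Set.mem_insert_iff, Set.mem_singleton_iff]
      constructor
      · rintro ⟨-, h | h⟩
        · exact Or.inl h.symm
        · exact Or.inr h.symm
      · rintro (rfl | rfl)
        · exact ⟨hl₁.symm, Or.inl rfl⟩
        · exact ⟨hl₂.symm, Or.inr rfl⟩
    rw [hset, Set.ncard_pair hw]
  have hcyc : H.IsCycles := fun v _ => hnb v
  have hne0 : (H.neighborSet a0).Nonempty := by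
    apply Set.nonempty_of_ncard_ne_zero
    rw [hnb a0]
    norm_num
  obtain ⟨p, hp, hverts⟩ := hcyc.exists_cycle_toSubgraph_verts_eq_connectedComponentSupp
    (v := a0) (c := H.connectedComponentMk a0) rfl hne0
  have hsupp : ∀ w, w ∈ p.support := by
    intro w
    rw [← SimpleGraph.Walk.mem_verts_toSubgraph, hverts]
    exact SimpleGraph.ConnectedComponent.sound (hconn w a0)
  have hham : p.IsHamiltonianCycle := by
    rw [SimpleGraph.Walk.isHamiltonianCycle_iff_isCycle_and_support_count_tail_eq_one]
    refine ⟨hp, fun w => ?_⟩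
    refine List.count_eq_one_of_mem hp.support_nodup ?_
    have hw := hsupp w
    rw [← SimpleGraph.Walk.cons_tail_support, List.mem_cons] at hw
    rcases hw with rfl | hw
    · exact SimpleGraph.Walk.end_mem_tail_support hp.not_nil
    · exact hw
  exact SimpleGraph.IsHamiltonian.mono (G.sub_le S) fun _ => ⟨a0, p, hham⟩

end Helper5.DCD
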